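import Pool.Agent.Lib_helper78.AT.Stage

/-!
# The construction, in a closed oracle
-/

set_option autoImplicit false

namespace Pool.Agent.AT

open Pool.Agent.CK Pool.Agent.RF Pool.Agent.CKP Pool.Agent.RO Pool.Agent.ADV Filter
open Pool.Agent.FS hiding Par
open Pool.Agent.TC hiding hasM_iff test_iff test_ok exists_S easy_test agree_low false_step dead_step
  pot_step base_agree OT_agree stage exists_k exists_par exists_out exists_F out_len F_mono
  exists_stage YF_short sh_iff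
open Pool.Agent.AEC

theorem exists_k (S : Th) (a c b A : ℕ) : ∃ k : ℕ, ∀ᶠ n : ℕ in atTop, 2 ≤ n ∧
    LLn S a (NN c (n + b)) ≤ 2 ^ 2 ^ (ix n + 1 + k + 1) ∧
    (2 ^ (A * (k + 1)) + 1) * (LLn S a (NN c (n + b)) * LLn S a (NN c (n + b)) +
      A * (2 ^ 2 ^ (ix n + 1 + k) * 2 ^ 2 ^ (ix n + 1 + k)) + 1) ≤ 2 ^ n := by
  have hNN : SEQ_PB (fun m => NN c (m + b)) :=
    SEQ_mul (SEQ_const c) (SEQ_pow (SEQ_add (SEQ_add SEQ_id (SEQ_const b)) (SEQ_const 2)) 5)
  have h1 : SEQ_PB (fun m => NN c (m + b) ^ a + a) := SEQ_add (SEQ_pow hNN _) (SEQ_const _)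
  have hL : SEQ_PB (fun m => LLn S a (NN c (m + b))) :=
    SEQ_add (SEQ_add h1 (SEQ_pow (SEQ_add h1 (SEQ_const 2)) _)) (SEQ_const 1)
  obtain ⟨E, hE⟩ := id hL
  refine ⟨2 * E, ?_⟩
  set k := 2 * E with hk
  have hbig : SEQ_PB (fun n => (2 ^ (A * (k + 1)) + 1) *
      (LLn S a (NN c (n + b)) * LLn S a (NN c (n + b)) +
      A * (n ^ 2 ^ (k + 1) * n ^ 2 ^ (k + 1)) + 1)) :=
    SEQ_mul (SEQ_const _) (SEQ_add (SEQ_add (SEQ_mul hL hL) (SEQ_mul (SEQ_const A)
      (SEQ_mul (SEQ_pow SEQ_id _) (SEQ_pow SEQ_id _)))) (SEQ_const _))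
  filter_upwards [SEQ_lt hbig, eventually_ge_atTop 2] with n hn h2
  refine ⟨h2, ?_, le_trans ?_ hn.le⟩
  · refine (hE n).trans ?_
    have g1 : n + 2 ≤ n ^ 2 := by nlinarith
    have g2 : (n + 2) ^ E ≤ n ^ (2 * E) := by
      rw [pow_mul]
      exact Nat.pow_le_pow_left g1 E
    have g3 : n ^ (2 * E) ≤ n ^ 2 ^ (k + 1) := by
      refine Nat.pow_le_pow_right (by omega) ?_
      have : k + 1 < 2 ^ (k + 1) := Nat.lt_two_pow_self
      omega
    have g4 : n ^ 2 ^ (k + 1) ≤ (2 ^ 2 ^ (ix n + 1)) ^ 2 ^ (k + 1) :=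
      Nat.pow_le_pow_left two_lev.le _
    have g5 : (2 ^ 2 ^ (ix n + 1)) ^ 2 ^ (k + 1) = 2 ^ 2 ^ (ix n + 1 + k + 1) := by
      rw [← pow_mul, ← pow_add]
      congr 2
    rw [g5] at g4
    exact g2.trans (g3.trans g4)
  · have g1 : 2 ^ 2 ^ (ix n + 1 + k) ≤ n ^ 2 ^ (k + 1) := by
      have g2 : (2 ^ 2 ^ ix n) ^ 2 ^ (k + 1) = 2 ^ 2 ^ (ix n + 1 + k) := by
        rw [← pow_mul, ← pow_add]
        congr 2
        omega
      rw [← g2]
      exact Nat.pow_le_pow_left (lev_le h2) _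
    exact Nat.mul_le_mul_left _ (Nat.add_le_add_right (Nat.add_le_add_left (Nat.mul_le_mul_left _
      (Nat.mul_le_mul g1 g1)) _) _)

/-- the closed oracle with the set `Y` -/
noncomputable def OP (ext : List Bool → Finset (List Bool)) (P : Par) (Y : Lang) : Lang :=
  OA ext GF P.g Y P.R

/-- the conditions -/
structure Ok (P : Par) : Prop where
  mono : StrictMono P.nn
  two : ∀ s, 2 ≤ P.nn s
  len : ∀ s, LLn (P.S s) (Nat.unpair s).2 (NN P.c (P.nn s + ((P.pf s).length + 1))) ≤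
    2 ^ 2 ^ (ix (P.nn s) + 1 + P.k s + 1)
  size : ∀ s, (2 ^ ((s + 1) * (P.k s + 1)) + 1) *
    (LLn (P.S s) (Nat.unpair s).2 (NN P.c (P.nn s + ((P.pf s).length + 1))) *
      LLn (P.S s) (Nat.unpair s).2 (NN P.c (P.nn s + ((P.pf s).length + 1))) +
      (s + 1) * (2 ^ 2 ^ (ix (P.nn s) + 1 + P.k s) * 2 ^ 2 ^ (ix (P.nn s) + 1 + P.k s)) + 1) ≤
      2 ^ P.nn s
  next : ∀ s, 2 ^ 2 ^ (ix (P.nn s) + 1 + P.k s + 1) < P.nn (s + 1)
  inj : Function.Injective P.num

/-- the outcome of a stage -/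
def Out (ext : List Bool → Finset (List Bool)) (P : Par) (s : ℕ) (F F' : Finset (List Bool)) :
    Prop :=
  F ⊆ F' ∧
  (∀ x ∈ F', x ∉ F → ∃ u y : List Bool, x = ad (ins (P.pf s) u) y ∧ u.length = P.nn s ∧
    (y = [] ∨ y.length = P.nn s)) ∧
  ((¬ P.Sh s (OP ext P (LF F')) ∧ ∀ u : List Bool, u.length = P.nn s →
      ad (ins (P.pf s) u) [] ∈ F' → ∃ y : List Bool, y.length = P.nn s ∧
        ad (ins (P.pf s) u) y ∈ F') ∨
    (P.Sh s (OP ext P (LF F')) ∧ ∃ u : List Bool, u.length = P.nn s ∧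
      ad (ins (P.pf s) u) [] ∈ F' ∧ ∀ y : List Bool, y ≠ [] → ad (ins (P.pf s) u) y ∉ F'))

/-- the strings of a set come from earlier stages -/
def Bel (P : Par) (s : ℕ) (F : Finset (List Bool)) : Prop :=
  ∀ x ∈ F, ∃ t < s, ∃ u y : List Bool, x = ad (ins (P.pf t) u) y ∧ u.length = P.nn t

theorem exists_par (R : Lang) (num : Th → ℕ) (hnum : Function.Injective num) (cl : ℕ → Th × Th)
    (c : ℕ) : ∃ P : Par, Ok P ∧ P.R = R ∧ P.num = num ∧ P.cl = cl ∧ P.c = c := by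
  have h0 := fun s : ℕ => exists_k (cl (Nat.unpair s).1).1 (Nat.unpair s).2 c
    ((pfxT (cl (Nat.unpair s).1).2 (num (cl (Nat.unpair s).1).1)).length + 1) (s + 1)
  choose k hk using h0
  obtain ⟨nn, h1, h2⟩ := SEQ_gen (P := fun s m => 2 ≤ m ∧
    LLn (cl (Nat.unpair s).1).1 (Nat.unpair s).2 (NN c (m +
      ((pfxT (cl (Nat.unpair s).1).2 (num (cl (Nat.unpair s).1).1)).length + 1))) ≤
      2 ^ 2 ^ (ix m + 1 + k s + 1) ∧
    (2 ^ ((s + 1) * (k s + 1)) + 1) *
    (LLn (cl (Nat.unpair s).1).1 (Nat.unpair s).2 (NN c (m +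
      ((pfxT (cl (Nat.unpair s).1).2 (num (cl (Nat.unpair s).1).1)).length + 1))) *
    LLn (cl (Nat.unpair s).1).1 (Nat.unpair s).2 (NN c (m +
      ((pfxT (cl (Nat.unpair s).1).2 (num (cl (Nat.unpair s).1).1)).length + 1))) +
      (s + 1) * (2 ^ 2 ^ (ix m + 1 + k s) * 2 ^ 2 ^ (ix m + 1 + k s)) + 1) ≤ 2 ^ m)
    hk (fun s m => 2 ^ 2 ^ (ix m + 1 + k s + 1))
  exact ⟨⟨R, num, cl, c, k, nn⟩, ⟨h1, fun s => (h2 s).1.1, fun s => (h2 s).1.2.1,
    fun s => (h2 s).1.2.2, fun s => (h2 s).2, hnum⟩, rfl, rfl, rfl, rfl⟩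

section

variable {ext : List Bool → Finset (List Bool)} {P : Par} (hext : Adm ext) (hP : Ok P)

include hP

theorem g_act (s u : ℕ) (hu : s + 1 ≤ u) : ix (P.nn s) + 1 + P.k s < P.g u := by
  have h1 := hP.next s
  have h2 := hP.mono.monotone hu
  have h3 : ix (P.nn s) + 1 + P.k s + 1 ≤ ix (P.nn u) := ix_lev (h1.le.trans h2)
  show _ < ix (P.nn u) + 2 * u + 2
  omega

omit hP in
theorem g_big (P : Par) (u : ℕ) : 2 * u + 1 < 2 ^ P.g u := by
  have h1 : P.g u < 2 ^ P.g u := Nat.lt_two_pow_self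
  have h2 : 2 * u + 2 ≤ P.g u := by
    show _ ≤ ix (P.nn u) + 2 * u + 2
    omega
  omega

theorem pf_inj {s t : ℕ} {u v : List Bool} (h : ins (P.pf s) u = ins (P.pf t) v) :
    P.S s = P.S t ∧ P.T s = P.T t ∧ u = v := by
  obtain ⟨h1, h2, h3⟩ := pfxT_inj (List.cons.inj h).2
  exact ⟨hP.inj h2, h1, h3⟩

theorem bel_notMem {s : ℕ} {F : Finset (List Bool)} (hF : Bel P s F) (u y : List Bool)
    (hu : u.length = P.nn s) : ad (ins (P.pf s) u) y ∉ F := by
  intro h
  obtain ⟨t, ht, u', y', h1, h2⟩ := hF _ h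
  have h3 := (pf_inj hP (ad_inj h1).1).2.2
  subst h3
  have := hP.mono.injective (hu.symm.trans h2)
  omega

omit hP in
theorem bel_next {s : ℕ} {F F' : Finset (List Bool)} (hF : Bel P s F) (h : Out ext P s F F') :
    Bel P (s + 1) F' := by
  intro x hx
  by_cases h1 : x ∈ F
  · obtain ⟨t, ht, h2⟩ := hF x h1
    exact ⟨t, by omega, h2⟩
  · obtain ⟨u, y, h2, h3, -⟩ := h.2.1 x hx h1
    exact ⟨s, Nat.lt_succ_self s, u, y, h2, h3⟩

include hext in
theorem exists_out (s : ℕ) (F : Finset (List Bool)) : ∃ F', Bel P s F → Out ext P s F F' := by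
  by_cases hF : Bel P s F
  · obtain ⟨F', h1, h2, h3⟩ := stage (G := GF) (g := P.g) hext (fun e he => he.1)
      (fun e he => he.2) P.R (P.pf s) (n := P.nn s) (a := s + 1) (k := P.k s)
      (q := LLn (P.S s) (Nat.unpair s).2 (NN P.c (P.nn s + ((P.pf s).length + 1))) *
        LLn (P.S s) (Nat.unpair s).2 (NN P.c (P.nn s + ((P.pf s).length + 1)))) F
      (hP.two s) (Nat.succ_pos s) (fun u y hu => bel_notMem hP hF u y hu) (g_act hP s)
      (P.Sh s) (fun O hO => by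
        obtain ⟨Q, h1, h2, h3⟩ := short_q hO
        exact ⟨Q, h1, fun x hx => (h2 x hx).le.trans (hP.len s), h3⟩) (hP.size s)
    exact ⟨F', fun _ => ⟨h1, h2, h3⟩⟩
  · exact ⟨∅, fun h => absurd h hF⟩

include hext in
/-- the finite sets -/
theorem exists_F : ∃ F : ℕ → Finset (List Bool), F 0 = ∅ ∧
    ∀ s, Bel P s (F s) ∧ Out ext P s (F s) (F (s + 1)) := by
  choose nx hnx using exists_out hext hP
  let F : ℕ → Finset (List Bool) := fun s => Nat.rec ∅ (fun s F => nx s F) s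
  have hB : ∀ s, Bel P s (F s) := by
    intro s
    induction s with
    | zero => exact fun x hx => absurd hx (Finset.notMem_empty x)
    | succ s ih => exact bel_next ih (hnx s (F s) ih)
  exact ⟨F, rfl, fun s => ⟨hB s, hnx s (F s) (hB s)⟩⟩

end

/-! ## The limit -/

section

variable {ext : List Bool → Finset (List Bool)} {P : Par} {F : ℕ → Finset (List Bool)}

theorem out_len {s : ℕ} {F F' : Finset (List Bool)}
    (h : Out ext P s F F') {x : List Bool} (hx : x ∈ F') (hx' : x ∉ F) : P.nn s < x.length := by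
  obtain ⟨u, y, h1, h2, -⟩ := h.2.1 x hx hx'
  rw [h1, ad_len]
  unfold ins
  rw [List.length_cons, List.length_append]
  omega

variable (hext : Adm ext) (hP : Ok P) (hF0 : F 0 = ∅)
  (hF : ∀ s, Bel P s (F s) ∧ Out ext P s (F s) (F (s + 1)))

include hF in
theorem F_mono {s t : ℕ} (h : s ≤ t) : F s ⊆ F t := by
  induction t, h using Nat.le_induction with
  | base => exact Finset.Subset.refl _
  | succ t _ ih => exact ih.trans (hF t).2.1

include hF0 in
/-- the stage of a string -/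
theorem exists_stage {x : List Bool} (h : YF F x = true) : ∃ s, x ∈ F (s + 1) ∧ x ∉ F s := by
  classical
  have h1 := YF_iff.1 h
  have h2 := Nat.find_spec h1
  rcases hk : Nat.find h1 with _ | k
  · rw [hk, hF0] at h2
    exact absurd h2 (Finset.notMem_empty x)
  · rw [hk] at h2
    exact ⟨k, h2, Nat.find_min h1 (by omega)⟩

include hP hF0 hF in
theorem YF_short {s : ℕ} {x : List Bool} (hx : x.length ≤ P.nn s) : YF F x = LF (F s) x := by
  unfold LF
  rw [Bool.eq_iff_iff, decide_eq_true_eq]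
  constructor
  · intro h
    obtain ⟨t, h1, h2⟩ := exists_stage hF0 h
    have h3 := out_len (hF t).2 h1 h2
    have h4 : t < s := by
      by_contra hcon
      have := hP.mono.monotone (Nat.not_lt.1 hcon)
      omega
    exact F_mono hF h4 h1
  · intro h
    exact YF_iff.2 ⟨s, h⟩

include hext hP hF0 hF in
/-- the goal of a stage in the limit -/
theorem sh_iff (s : ℕ) : P.Sh s (OP ext P (YF F)) ↔ P.Sh s (OP ext P (LF (F (s + 1)))) := by
  have hag : ∀ x : List Bool, x.length ≤ P.nn (s + 1) →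
      OP ext P (YF F) x = OP ext P (LF (F (s + 1))) x := by
    refine OA_agree hext (fun e he => he.1) (fun x hx => ?_)
    exact YF_short hP hF0 hF hx.le
  have key : ∀ O O' : Lang, (∀ x : List Bool, x.length ≤ P.nn (s + 1) → O x = O' x) →
      P.Sh s O → P.Sh s O' := by
    intro O O' h hO
    obtain ⟨Q, -, h1, h2⟩ := short_q hO
    refine h2 O' (fun x hx => (h x ?_).symm)
    have h3 := h1 x hx
    have h4 := hP.len s
    have h5 := hP.next s
    omega
  exact ⟨key _ _ hag, key _ _ (fun x hx => (hag x hx).symm)⟩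

include hP hF0 hF in
/-- the strings of a stage -/
theorem mem_stage {s : ℕ} {u y : List Bool} (hu : u.length = P.nn s)
    (h : YF F (ad (ins (P.pf s) u) y) = true) : ad (ins (P.pf s) u) y ∈ F (s + 1) := by
  obtain ⟨t, h1, h2⟩ := exists_stage hF0 h
  obtain ⟨v, w, h3, h4, -⟩ := (hF t).2.2.1 _ h1 h2
  have h5 := (pf_inj hP (ad_inj h3).1).2.2
  subst h5
  have := hP.mono.injective (hu.symm.trans h4)
  rw [this]
  rw [this] at h1
  exact h1

include hext in
theorem OP_ad {Y : Lang} {p u y : List Bool} :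
    OP ext P Y (true :: ad (ins p u) y) = Y (ad (ins p u) y) :=
  OA_Y hext (fun e he => he.1) _ _ (ad_not_tally List.mem_cons_self)

end

end Pool.Agent.AT
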