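import Pool.Agent.Lib_helper78.AEC.Clo
import Pool.Agent.Lib_helper78.TC.Stage

/-!
# Closures under an extension scheme and their differences
-/

set_option autoImplicit false

namespace Pool.Agent.AT

open Pool.Agent.CK Pool.Agent.AEC Pool.Agent.TC

/-- the operator -/
def opC (ext : List Bool → Finset (List Bool)) (R H O : Lang) : Lang
  | [] => false
  | [false] => false
  | false :: false :: s => R s
  | false :: true :: w => par (ext w) O
  | true :: x => H x

theorem opC_loc {ext : List Bool → Finset (List Bool)} (hext : Adm ext) (R H : Lang) :
    Loc (opC ext R H) := by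
  intro x O O' h
  match x with
  | [] => rfl
  | [false] => rfl
  | false :: false :: s => rfl
  | false :: true :: w =>
    refine par_congr fun s hs => h s ?_
    have := hext w s hs
    simp only [List.length_cons]
    omega
  | true :: x => rfl

/-- the closure -/
def clo (ext : List Bool → Finset (List Bool)) (R H : Lang) : Lang := fixO (opC ext R H)

theorem clo_is {ext : List Bool → Finset (List Bool)} (hext : Adm ext) (R H : Lang) :
    IsClo ext R H (clo ext R H) where
  nil := fixO_eq (opC_loc hext R H) []
  one := fixO_eq (opC_loc hext R H) [false]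
  left s := fixO_eq (opC_loc hext R H) (false :: false :: s)
  mid w := fixO_eq (opC_loc hext R H) (false :: true :: w)
  right x := fixO_eq (opC_loc hext R H) (true :: x)

theorem par_xor (F : Finset (List Bool)) (O O' : Lang) :
    par F (fun x => xor (O x) (O' x)) = xor (par F O) (par F O') := by
  classical
  induction F using Finset.induction_on with
  | empty => simp [par]
  | insert a F ha ih =>
    have key : ∀ O : Lang, par (insert a F) O = xor (O a) (par F O) := by
      intro O
      unfold par
      rw [Finset.filter_insert]
      by_cases h : O a = true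
      · rw [if_pos h, Finset.card_insert_of_notMem (by
          rw [Finset.mem_filter]
          exact fun hh => ha hh.1), h, Bool.true_xor]
        rw [Bool.eq_iff_iff]
        simp [Nat.odd_add_one]
      · rw [if_neg h]
        rw [Bool.not_eq_true] at h
        rw [h, Bool.false_xor]
    rw [key, key, key, ih]
    cases O a <;> cases O' a <;> cases par F O <;> cases par F O' <;> rfl

/-- the difference of two closures -/
theorem clo_diff {ext : List Bool → Finset (List Bool)} (hext : Adm ext) {R R' R'' H H' H'' : Lang}
    {O O' O'' : Lang} (hO : IsClo ext R H O) (hO' : IsClo ext R' H' O')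
    (hO'' : IsClo ext R'' H'' O'') {N : ℕ} (hR : ∀ x, R'' x = xor (R x) (R' x))
    (hH : ∀ x : List Bool, x.length < N → H'' x = xor (H x) (H' x)) (x : List Bool) :
    x.length ≤ N → O'' x = xor (O x) (O' x) := by
  induction hn : x.length using Nat.strong_induction_on generalizing x with
  | _ n ih =>
    subst hn
    intro hN
    match x with
    | [] => rw [hO.nil, hO'.nil, hO''.nil]; rfl
    | [false] => rw [hO.one, hO'.one, hO''.one]; rfl
    | false :: false :: s => rw [hO.left, hO'.left, hO''.left, hR]
    | false :: true :: w =>
      rw [hO.mid, hO'.mid, hO''.mid, ← par_xor]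
      refine par_congr fun s hs => ?_
      have h1 := hext w s hs
      simp only [List.length_cons] at hN ih
      exact ih s.length (by omega) s rfl (by omega)
    | true :: x =>
      rw [hO.right, hO'.right, hO''.right]
      rw [List.length_cons] at hN
      exact hH x (by omega)

/-- the change of the closure if the set `D` is added -/
def dl (ext : List Bool → Finset (List Bool)) (D : Lang) : Lang := clo ext (fun _ => false) D

theorem clo_flip {ext : List Bool → Finset (List Bool)} (hext : Adm ext) {R H H' D O O' : Lang}
    (hO : IsClo ext R H O) (hO' : IsClo ext R H' O') {N : ℕ}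
    (hH : ∀ x : List Bool, x.length < N → H' x = xor (H x) (D x)) (x : List Bool)
    (hx : x.length ≤ N) : O' x = xor (O x) (dl ext D x) :=
  clo_diff hext hO (clo_is hext _ D) hO' (fun x => by simp) hH x hx

theorem dl_short {ext : List Bool → Finset (List Bool)} (hext : Adm ext) {D : Lang} {N : ℕ}
    (hD : ∀ x : List Bool, x.length < N → D x = false) (x : List Bool) (hx : x.length ≤ N) :
    dl ext D x = false := by
  have h := clo_diff hext (clo_is hext (fun _ => false) D) (clo_is hext (fun _ => false) D)
    (clo_is hext (fun _ => false) D) (N := N) (fun _ => rfl) (fun x hx => by rw [hD x hx]; rfl) x hx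
  unfold dl
  rw [h]
  cases clo ext (fun _ => false) D x <;> rfl

theorem dl_xor {ext : List Bool → Finset (List Bool)} (hext : Adm ext) {D D' D'' : Lang}
    (h : ∀ x, D'' x = xor (D x) (D' x)) (x : List Bool) :
    dl ext D'' x = xor (dl ext D x) (dl ext D' x) :=
  clo_diff hext (clo_is hext (fun _ => false) D) (clo_is hext (fun _ => false) D')
    (clo_is hext (fun _ => false) D'') (N := x.length) (fun _ => rfl) (fun x _ => h x) x le_rfl

/-- **More candidates than questions: some change is not seen.** -/
theorem exists_kernel {ext : List Bool → Finset (List Bool)} (hext : Adm ext)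
    (C Q : Finset (List Bool)) (h : Q.card < C.card) :
    ∃ D ⊆ C, D.Nonempty ∧ ∀ x ∈ Q, dl ext (LF D) x = false := by
  classical
  obtain ⟨V, hV, V', hV', hne, he⟩ := Finset.exists_ne_map_eq_of_card_lt_of_maps_to
    (s := C.powerset) (t := Q.powerset)
    (f := fun V => Q.filter (fun x => dl ext (LF V) x = true)) (by
      rw [Finset.card_powerset, Finset.card_powerset]
      exact Nat.pow_lt_pow_right (by norm_num) h)
    (fun V _ => Finset.mem_coe.2 (Finset.mem_powerset.2 (Finset.filter_subset _ _)))
  rw [Finset.mem_powerset] at hV hV'
  refine ⟨symmDiff V V', ?_, ?_, fun x hx => ?_⟩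
  · intro x hx
    rw [Finset.mem_symmDiff] at hx
    rcases hx with hx | hx
    · exact hV hx.1
    · exact hV' hx.1
  · rw [Finset.nonempty_iff_ne_empty]
    intro h0
    have h1 : symmDiff V V' = ∅ := h0
    exact hne (symmDiff_eq_bot.1 h1)
  · have h1 : ∀ x, LF (symmDiff V V') x = xor (LF V x) (LF V' x) := by
      intro x
      unfold LF
      rw [Bool.eq_iff_iff]
      simp only [decide_eq_true_eq, Finset.mem_symmDiff]
      by_cases h1 : x ∈ V <;> by_cases h2 : x ∈ V' <;> simp [h1, h2]
    rw [dl_xor hext h1]
    have h2 : (dl ext (LF V) x = true) ↔ (dl ext (LF V') x = true) := by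
      have h3 := Finset.ext_iff.1 he x
      simp only [Finset.mem_filter, hx, true_and] at h3
      exact h3
    cases h3 : dl ext (LF V) x <;> cases h4 : dl ext (LF V') x <;> simp_all

end Pool.Agent.AT
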