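import Pool.Agent.Lib_helper78.AT.Clo
import Pool.Agent.Lib_helper78.FS.True

/-!
# The set, in a closed oracle
-/

set_option autoImplicit false

namespace Pool.Agent.AT

open Pool.Agent.CK Pool.Agent.RF Pool.Agent.CKP Pool.Agent.RO Filter
open Pool.Agent.FS hiding F_succ F_sub F_mono add_spec exists_add W_of_mem mem_F_of_short agree_W
  acc_W not_acc
open Pool.Agent.TC (LF)
open Pool.Agent.AEC

theorem LFu {F D : Finset (List Bool)} (h : ∀ x ∈ D, x ∉ F) (x : List Bool) :
    LF (F ∪ D) x = xor (LF F x) (LF D x) := by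
  have h1 := h x
  unfold LF
  rw [Bool.eq_iff_iff]
  simp only [decide_eq_true_eq, Finset.mem_union]
  by_cases h2 : x ∈ F <;> by_cases h3 : x ∈ D <;> simp_all

theorem clo_agree {ext : List Bool → Finset (List Bool)} (hext : Adm ext) {R H H' : Lang} {N : ℕ}
    (hH : ∀ x : List Bool, x.length < N → H x = H' x) :
    Agree N (clo ext R H) (clo ext R H') := by
  intro x hx
  rw [clo_flip (D := fun _ => false) hext (clo_is hext R H) (clo_is hext R H')
    (fun x hx => by rw [hH x hx, Bool.xor_false]) x hx.le,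
    dl_short hext (N := x.length) (fun _ _ => rfl) x le_rfl, Bool.xor_false]

variable (ext : List Bool → Finset (List Bool)) (P : FS.Par)

/-- the closed oracle with the finite set `F` -/
def OF (F : Finset (List Bool)) : Lang := clo ext P.R (LF F)

/-- the set can be added -/
def Cand (s : ℕ) (F D : Finset (List Bool)) : Prop :=
  D.Nonempty ∧
    (∀ x ∈ D, ∃ y : List Bool, x = P.pf (Par.ks s) ++ y ∧ y.length + 1 = 2 ^ (st s + 1)) ∧
    AccS (OF ext P (F ∪ D)) (P.cl (Par.ks s)).1 (P.cl (Par.ks s)).2 s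

/-- the pair is treated at stage `s` -/
def Go (s : ℕ) (F : Finset (List Bool)) : Prop :=
  P.g (Par.ks s) ≤ s ∧ (∀ y, P.pf (Par.ks s) ++ y ∉ F) ∧ ∃ D, Cand ext P s F D

open Classical in
/-- one stage -/
noncomputable def step (s : ℕ) (F : Finset (List Bool)) : Finset (List Bool) :=
  if h : Go ext P s F then F ∪ h.2.2.choose else F

/-- the finite sets -/
noncomputable def FF : ℕ → Finset (List Bool)
  | 0 => ∅
  | s + 1 => step ext P s (FF s)

open Classical in
/-- the set -/
noncomputable def WW : Lang := fun x => decide (∃ s, x ∈ FF ext P s)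

theorem F_succ (s : ℕ) : FF ext P (s + 1) = step ext P s (FF ext P s) := rfl

theorem F_sub (s : ℕ) : FF ext P s ⊆ FF ext P (s + 1) := by
  rw [F_succ]
  unfold step
  split_ifs
  · exact Finset.subset_union_left
  · exact Finset.Subset.refl _

theorem F_mono' {s t : ℕ} (h : s ≤ t) : FF ext P s ⊆ FF ext P t := by
  induction t, h using Nat.le_induction with
  | base => exact Finset.Subset.refl _
  | succ t _ ih => exact ih.trans (F_sub ext P t)

/-- the string is added at stage `s` -/
def Add (s : ℕ) (x : List Bool) : Prop := x ∈ FF ext P (s + 1) ∧ x ∉ FF ext P s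

theorem add_spec {s : ℕ} {x : List Bool} (h : Add ext P s x) :
    P.g (Par.ks s) ≤ s ∧ (∃ y : List Bool, x = P.pf (Par.ks s) ++ y ∧
      y.length + 1 = 2 ^ (st s + 1)) ∧
      AccS (OF ext P (FF ext P (s + 1))) (P.cl (Par.ks s)).1 (P.cl (Par.ks s)).2 s := by
  classical
  obtain ⟨h1, h2⟩ := h
  rw [F_succ] at h1 ⊢
  unfold step at h1 ⊢
  split_ifs at h1 ⊢ with hg
  · rcases Finset.mem_union.1 h1 with h3 | h3
    · exact absurd h3 h2
    · obtain ⟨-, h4, h5⟩ := hg.2.2.choose_spec
      exact ⟨hg.1, h4 x h3, h5⟩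
  · exact absurd h1 h2

theorem exists_add {x : List Bool} (h : WW ext P x = true) : ∃ s, Add ext P s x := by
  classical
  have h1 : ∃ s, x ∈ FF ext P s := of_decide_eq_true h
  have h2 := Nat.find_spec h1
  rcases hk : Nat.find h1 with _ | k
  · rw [hk] at h2
    exact absurd h2 (by simp [FF])
  · rw [hk] at h2
    exact ⟨k, h2, Nat.find_min h1 (by omega)⟩

theorem W_of_mem {s : ℕ} {x : List Bool} (h : x ∈ FF ext P s) : WW ext P x = true := by
  classical
  exact decide_eq_true (p := ∃ s, x ∈ FF ext P s) ⟨s, h⟩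

/-- late strings are long -/
theorem mem_F_of_short {s : ℕ} {x : List Bool} (h : WW ext P x = true)
    (hx : x.length + 1 < 2 ^ (st s + 1)) : x ∈ FF ext P s := by
  obtain ⟨t, ht⟩ := exists_add ext P h
  obtain ⟨-, ⟨y, hy, hc⟩, -⟩ := add_spec ext P ht
  have h1 : y.length ≤ x.length := by rw [hy, List.length_append]; omega
  have h2 : t < s := by
    by_contra hcon
    have h3 : 2 ^ (st s + 1) ≤ 2 ^ (st t + 1) :=
      Nat.pow_le_pow_right (by norm_num) (by
        have := st_mono.monotone (Nat.not_lt.1 hcon)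
        omega)
    omega
  exact F_mono' ext P (Nat.succ_le_of_lt h2) ht.1

variable {ext}

theorem agree_W (hext : Adm ext) {s N : ℕ} (hN : N < 2 ^ (st s + 1)) :
    Agree N (OF ext P (FF ext P s)) (clo ext P.R (WW ext P)) := by
  refine clo_agree hext (fun x hx => ?_)
  unfold LF
  rw [Bool.eq_iff_iff, decide_eq_true_eq]
  exact ⟨W_of_mem ext P, fun h => mem_F_of_short ext P h (by omega)⟩

theorem acc_W (hext : Adm ext) {s k J : ℕ} {S T : Th} (hk : S.2 = k) (hL : Large k J)
    (hJ : J ≤ s) :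
    AccS (OF ext P (FF ext P (s + 1))) S T s ↔ AccS (clo ext P.R (WW ext P)) S T s := by
  subst hk
  refine acc_local (agree_W P hext ?_)
  have h1 := (hL (s + 1) (by omega)).1
  have h2 : 2 ^ st (s + 1) ≤ 2 ^ (st (s + 1) + 1) := Nat.pow_le_pow_right (by norm_num) (by omega)
  omega

/-- a pair that is never treated successfully -/
theorem not_acc (hext : Adm ext) {m s J : ℕ} (hm : ∀ y, WW ext P (P.pf m ++ y) = false)
    (hs : Par.ks s = m)
    (hg : P.g m ≤ s) (hL : Large (P.cl m).1.2 J) (hJ : J ≤ s) :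
    ¬ AccS (clo ext P.R (WW ext P)) (P.cl m).1 (P.cl m).2 s := by
  classical
  intro hacc
  subst hs
  have hno : ¬ Go ext P s (FF ext P s) := by
    intro hgo
    obtain ⟨⟨x, hx⟩, h0, -⟩ := hgo.2.2.choose_spec
    obtain ⟨y, hy, -⟩ := h0 x hx
    have h1 : x ∈ FF ext P (s + 1) := by
      rw [F_succ]
      unfold step
      rw [dif_pos hgo]
      exact Finset.mem_union_right _ hx
    have h2 := W_of_mem ext P h1
    rw [hy, hm] at h2
    exact Bool.false_ne_true h2
  have hF : FF ext P (s + 1) = FF ext P s := by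
    rw [F_succ]
    unfold step
    rw [dif_neg hno]
  rw [← acc_W P hext rfl hL hJ, hF] at hacc
  obtain ⟨Q, hQ, hQ2⟩ := acc_touch hacc
  -- a change that is not seen
  have hcard : Q.card < 2 ^ (2 ^ (st s + 1) - 1) := by
    have h1 := (hL s hJ).2
    have h2 : tb (st (s + 1)) ^ ((P.cl (Par.ks s)).1.2 + 1) ≤
        tb (st (s + 1)) ^ ((P.cl (Par.ks s)).1.2 + 1) * 2 ^ (s + 2) :=
      Nat.le_mul_of_pos_right _ (by positivity)
    have h3 : 2 ^ 2 ^ st s < 2 ^ (2 ^ (st s + 1) - 1) := by
      refine Nat.pow_lt_pow_right (by norm_num) ?_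
      have h4 : 2 ^ (st s + 1) = 2 * 2 ^ st s := by ring
      have h5 : 2 ^ 1 ≤ 2 ^ st s := Nat.pow_le_pow_right (by norm_num) (by
        have := lt_st s
        omega)
      omega
    omega
  have hnF : ∀ z, P.pf (Par.ks s) ++ z ∉ FF ext P s := by
    intro z hz
    have h2 := W_of_mem ext P hz
    rw [hm] at h2
    exact Bool.false_ne_true h2
  obtain ⟨D, hD1, hD2, hD3⟩ := exists_kernel hext
    ((Finset.univ : Finset (Fin (2 ^ (st s + 1) - 1) → Bool)).image
      (fun f => P.pf (Par.ks s) ++ List.ofFn f)) Q (by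
      rw [Finset.card_image_of_injective, Finset.card_univ, Fintype.card_fun, Fintype.card_bool,
        Fintype.card_fin]
      · exact hcard
      · intro a b hab
        exact List.ofFn_injective (List.append_cancel_left hab))
  have hD4 : ∀ x ∈ D, ∃ y : List Bool, x = P.pf (Par.ks s) ++ y ∧
      y.length + 1 = 2 ^ (st s + 1) := by
    intro x hx
    obtain ⟨f, -, rfl⟩ := Finset.mem_image.1 (hD1 hx)
    refine ⟨List.ofFn f, rfl, ?_⟩
    rw [List.length_ofFn]
    have := Nat.one_le_two_pow (n := st s + 1)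
    omega
  refine hno ⟨hg, hnF, D, hD2, hD4, ?_⟩
  refine hQ2 _ (fun x hx => ?_)
  have h1 := clo_flip (D := LF D) (N := x.length) hext (clo_is hext P.R (LF (FF ext P s)))
    (clo_is hext P.R (LF (FF ext P s ∪ D))) (fun x _ => LFu (fun x hx hxF => by
      obtain ⟨y, hy, -⟩ := hD4 x hx
      rw [hy] at hxF
      exact hnF y hxF) x) x le_rfl
  unfold OF
  rw [h1, hD3 x hx, Bool.xor_false]

/-- **Above every oracle: Q1 and the variant with consistency are true, in a closed oracle.** -/
theorem closed_true (hext : Adm ext) (R : Lang) :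
    ∃ O : Lang, IsClo ext R (fun x => O (true :: x)) O ∧
      (∃ B, BaseD O B ∧ ∀ σ, S12 σ → B σ) ∧
      ∀ B, BaseD O B → ∀ S, InT O B S → ∃ T, InT O B T ∧
        ¬ PolyBounded O S (RFN T) ∧ ¬ PolyBounded O S (Con T) ∧
        ∀ m, ∃ n, m ≤ n ∧ ∀ l : List Fm,
          (IsProof (Ax O S) (l ++ [RFN T n]) →
            n < (Nat.size (pEnc (l ++ [RFN T n])).length) ^ 7) ∧
          (IsProof (Ax O S) (l ++ [Con T n]) →
            n < (Nat.size (pEnc (l ++ [Con T n])).length) ^ 7) := by
  have hc : Countable Cmd := Function.Injective.countable cEnc_inj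
  obtain ⟨num, hnum⟩ := exists_injective_nat Th
  have : Nonempty (Th × Th) := ⟨((Cmd.skip, 0), (Cmd.skip, 0))⟩
  obtain ⟨cl, hcl⟩ := exists_surjective_nat (Th × Th)
  choose J hJ using large_all
  let P : FS.Par := ⟨R, num, cl, fun m => J (cl m).1.2 +
    (pfxT (cl m).2 (num (cl m).1)).length⟩
  have hgJ : ∀ m, J (cl m).1.2 ≤ P.g m := fun m => by
    show _ ≤ J (cl m).1.2 + (pfxT (cl m).2 (num (cl m).1)).length
    omega
  have hgp : ∀ m, (P.pf m).length ≤ P.g m := fun m => by
    show (pfxT (cl m).2 (num (cl m).1)).length ≤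
      J (cl m).1.2 + (pfxT (cl m).2 (num (cl m).1)).length
    omega
  have hcl0 : IsClo ext R (WW ext P) (clo ext R (WW ext P)) := clo_is hext R (WW ext P)
  have hW : (fun x => clo ext R (WW ext P) (true :: x)) = WW ext P := by
    funext x
    exact hcl0.right x
  refine ⟨clo ext R (WW ext P), by rw [hW]; exact hcl0, base_all _, fun B hB S hS => ?_⟩
  set O := clo ext R (WW ext P) with hO
  obtain ⟨T, hTh, hax⟩ := exists_T hB (num S)
  obtain ⟨m, hm⟩ := hcl (S, T)
  have hpf : P.pf m = pfxT T (num S) := by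
    show pfxT (cl m).2 (num (cl m).1) = _
    rw [hm]
  have hsub : ∀ σ, B σ → Ax O T σ := fun σ hσ => (hax σ).mpr (Or.inl hσ)
  -- the pair is never treated successfully
  have hno : ∀ y, WW ext P (P.pf m ++ y) = false := by
    intro y
    by_contra hcon
    have hW : WW ext P (P.pf m ++ y) = true := by simpa using hcon
    obtain ⟨s, hs⟩ := exists_add ext P hW
    obtain ⟨h1, ⟨y', hy', h3⟩, h4⟩ := add_spec ext P hs
    have h5 : pfxT T (num S) ++ y = pfxT (cl (Par.ks s)).2 (num (cl (Par.ks s)).1) ++ y' := by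
      rw [← hpf]; exact hy'
    obtain ⟨h6, h7, h8⟩ := pfxT_inj h5
    have h9 := hnum h7
    subst h8
    have hcl' : cl (Par.ks s) = (S, T) := Prod.ext h9.symm h6.symm
    have hL : Large S.2 (J S.2) := hJ _
    have hJs : J S.2 ≤ s := by
      have h10 := hgJ (Par.ks s)
      have h11 : J (cl (Par.ks s)).1.2 = J S.2 := by rw [hcl']
      omega
    have hacc : AccS (OF ext P (FF ext P (s + 1))) S T s := by
      have h10 : AccS (OF ext P (FF ext P (s + 1))) (cl (Par.ks s)).1 (cl (Par.ks s)).2 s := h4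
      rwa [hcl'] at h10
    rw [acc_W P hext rfl hL hJs] at hacc
    have h8' : 8 ≤ st s := by
      have := lt_st s
      omega
    refine fin_false1 (O := O) hB hS hsub ((hax _).2 (Or.inr ⟨st s, h8', rfl⟩)) ?_ h3 ?_ hacc
    · have h10 := hgp (Par.ks s)
      have h11 : P.pf (Par.ks s) = pfxT T (num S) := by
        show pfxT (cl (Par.ks s)).2 (num (cl (Par.ks s)).1) = _
        rw [hcl']
      rw [h11] at h10
      have h12 := lt_st s
      omega
    · rw [hcl0.right, ← hpf]
      exact hW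
  have htrue : ∀ σ, Ax O T σ → σ.True O := by
    intro σ hσ
    rcases (hax σ).mp hσ with h | ⟨l, h8, rfl⟩
    · exact hB.isTrue σ h
    · refine t1F_true (fun y _ hy => ?_)
      rw [hcl0.right, ← hpf, hno] at hy
      exact Bool.false_ne_true hy
  have key : ∀ m', ∃ n, m' ≤ n ∧ ∀ l : List Fm,
      (IsProof (Ax O S) (l ++ [RFN T n]) →
        n < (Nat.size (pEnc (l ++ [RFN T n])).length) ^ 7) ∧
      (IsProof (Ax O S) (l ++ [Con T n]) →
        n < (Nat.size (pEnc (l ++ [Con T n])).length) ^ 7) := by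
    intro m'
    obtain ⟨s0, hs0⟩ := growth_st
    obtain ⟨s, hs, hks⟩ : ∃ s, P.g m + J S.2 + s0 + m' ≤ s ∧ Par.ks s = m := by
      refine ⟨Nat.pair m (P.g m + J S.2 + s0 + m'), Nat.right_le_pair _ _, ?_⟩
      unfold Par.ks
      rw [Nat.unpair_pair]
    have hL : Large (P.cl m).1.2 (J S.2) := by
      show Large (cl m).1.2 _
      rw [hm]; exact hJ _
    have hna : ¬ AccS O S T s := by
      have h1 := not_acc P hext (J := J S.2) hno hks (by omega) hL (by omega)
      have h2 : P.cl m = (S, T) := hm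
      rwa [h2] at h1
    refine ⟨2 ^ (3 * st s + 13) - 2, ?_, fun l => ⟨fun h => ?_, fun h => ?_⟩⟩
    · have h1 := lt_st s
      have h2 : 3 * st s + 13 < 2 ^ (3 * st s + 13) := Nat.lt_two_pow_self
      omega
    · by_contra hcon
      exact hna (proof_acc (Or.inl rfl) h (hs0 s (by omega) _ (Nat.not_lt.1 hcon)))
    · by_contra hcon
      exact hna (proof_acc (Or.inr rfl) h (hs0 s (by omega) _ (Nat.not_lt.1 hcon)))
  refine ⟨T, ⟨hTh, hsub, ?_, ?_⟩, ?_, ?_, key⟩
  · intro σ hσ
    rcases (hax σ).mp hσ with h | ⟨l, -, rfl⟩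
    · exact hB.closed σ h
    · exact t1F_closed _ _
  · intro h
    have h1 := sound htrue h (fun _ => 0)
    exact h1 rfl
  · exact not_bounded fun m => by
      obtain ⟨n, hn, h⟩ := key m
      exact ⟨n, hn, fun l => (h l).1⟩
  · exact not_bounded fun m => by
      obtain ⟨n, hn, h⟩ := key m
      exact ⟨n, hn, fun l => (h l).2⟩

end Pool.Agent.AT
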