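import Pool.Agent.Lib_helper78.AT.Pot
import Pool.Agent.Lib_helper78.FS.False

/-!
# In a closed oracle with a sparse tally set: Q1 and the variant with consistency are false
-/

set_option autoImplicit false

namespace Pool.Agent.AT

open Pool.Agent.CK Pool.Agent.RF Pool.Agent.CKP Pool.Agent.RO Pool.Agent.ADV Filter
open Pool.Agent.FS (Few)
open Pool.Agent.TC (Mark few_marks)
open Pool.Agent.AEC

/-- **The first case.** -/
theorem closed_false {ext : List Bool → Finset (List Bool)} (hext : Adm ext) (R : Lang)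
    {α : ℕ → ℕ} (hα : Tendsto α atTop atTop) :
    ∃ O : Lang, IsClo ext R (fun x => O (true :: x)) O ∧ Few α (fun x => O (true :: x)) ∧
      (∀ x, O (true :: x) = true → ∃ j, x = List.replicate (2 ^ j) false) ∧
      (∃ B, BaseD O B ∧ ∀ σ, S12 σ → B σ) ∧
      ∀ B, Base O B → ∃ S, InT O B S ∧
        (∀ T, InT O B T → EasyProofs O S (RFN T)) ∧
        ∀ (i : ℕ) (φ : Fm), LocalFam i φ → (∀ j, φ.free j → j = i) →
          (∀ n, (φ.sb i (num n)).True O) →
          EasyProofs O S (fun n => φ.sb i (num n)) := by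
  have hα2 : ∀ u : ℕ, ∃ N, ∀ n, N ≤ n → 2 * u + 2 ≤ α n := fun u =>
    (tendsto_atTop.1 hα (2 * u + 2)).exists_forall_of_atTop
  choose N hN using hα2
  let g : ℕ → ℕ := fun u => 2 * u + 2 + N u
  have hg : ∀ u, 2 * u + 1 < 2 ^ g u := fun u => by
    have h1 : g u < 2 ^ g u := Nat.lt_two_pow_self
    have h2 : 2 * u + 2 ≤ g u := Nat.le_add_right _ _
    omega
  have hG : ∀ e : Fam, Fam.Good e → e.Good := fun e he => he
  obtain ⟨O, hO⟩ : ∃ O, O = OA ext Fam.Good g (fun _ => false) R := ⟨_, rfl⟩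
  have hclo : IsClo ext R (fun x => O (true :: x)) O := by
    rw [hO]; exact OA_is hext hG _ _
  have hT : TalO Fam.Good g O := by
    rw [hO]; exact OA_tally hext hG _ _
  have hW : ∀ x : List Bool, O (true :: x) = true → Mark Fam.Good g O x := by
    intro x hx
    by_cases ht : x = List.replicate x.length false
    · rw [ht] at hx ⊢
      exact (hT _).1 hx
    · rw [hO, OA_Y hext hG _ _ ht] at hx
      exact absurd hx Bool.false_ne_true
  refine ⟨O, hclo, fun n => ?_, fun x hx => ?_, base_all _, ?_⟩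
  · have h1 := few_marks (G := Fam.Good) (g := g) (α := α) O (fun u n h => hN u n (by
      have h1 : g u < 2 ^ g u := Nat.lt_two_pow_self
      have h2 : 2 ^ g u < 2 ^ 2 ^ g u := Nat.lt_two_pow_self
      have h3 : N u ≤ g u := Nat.le_add_left _ _
      omega)) n
    have hfin : {x : List Bool | x.length ≤ n}.Finite := List.finite_length_le Bool n
    refine (Set.ncard_le_ncard ?_ (hfin.subset (fun x hx => hx.1))).trans h1
    rintro x ⟨hx, h⟩
    exact ⟨hx, hW x h⟩
  · obtain ⟨l, u, b, h1, -⟩ := hW x hx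
    exact ⟨_, h1⟩
  intro B hB
  obtain ⟨S, hS, hax⟩ := exists_S (G := Fam.Good) hG hT hg hB
  have key : ∀ e : Fam, e.Good → (∀ n, (e.at n).True O) →
      EasyProofs O S e.at := fun e he ht => easy_test (G := Fam.Good) hT hg hax e he ht
  refine ⟨S, hS, fun T hT => ?_, fun i φ hl hf ht => ?_⟩
  · have h1 := key _ (rfn_good T) (fun n => by
      unfold Fam.at
      rw [rfnF_sb]
      exact rfn_true hB hT n)
    have h2 : Fam.at (5, 2 * T.2 + 3, rfnF T) = RFN T := by
      funext n
      exact rfnF_sb T n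
    rw [h2] at h1
    exact h1
  · obtain ⟨c, hc⟩ := good_of_local hl hf
    exact key (i, c, φ) hc ht

end Pool.Agent.AT
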