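import Pool.Agent.Lib_helper78.AT.Mixed
import Pool.Agent.Lib_helper78.AT.Grow
import Pool.Agent.Lib_helper78.AT.Marks
import Pool.Agent.Lib_helper78.AEC.Fin

/-!
# The three cases above every oracle, in closed oracles
-/

set_option autoImplicit false

namespace Pool.Agent.AT

open Pool.Agent.CK Pool.Agent.RF Pool.Agent.RO Pool.Agent.ADV Pool.Agent.AEC Filter
open Pool.Agent.FS (Few)

/-- The main theorem. -/
theorem mainAT (ext : List Bool → Finset (List Bool)) (Φ : Fields) (hext : Adm ext) (R : Lang) :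
    (∀ α : ℕ → ℕ, Tendsto α atTop atTop → ∃ W O : Lang, ClosedOver ext Φ R W O ∧ Few α W ∧
      (∀ x, W x = true → ∃ j, x = List.replicate (2 ^ j) false) ∧
      (∃ B, BaseD O B ∧ ∀ σ, S12 σ → B σ) ∧
      ∀ B, Base O B → ∃ S, InT O B S ∧
        (∀ T, InT O B T → EasyProofs O S (RFN T)) ∧
        ∀ (i : ℕ) (φ : Fm), LocalFam i φ → (∀ j, φ.free j → j = i) →
          (∀ n, (φ.sb i (num n)).True O) → EasyProofs O S (fun n => φ.sb i (num n))) ∧
    (∃ W O : Lang, ClosedOver ext Φ R W O ∧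
      (∃ B, BaseD O B ∧ ∀ σ, S12 σ → B σ) ∧
      ∀ B, BaseD O B → ∀ S, InT O B S → ∃ T, InT O B T ∧
        ¬ PolyBounded O S (RFN T) ∧ ¬ PolyBounded O S (Con T) ∧
        ∀ m, ∃ n, m ≤ n ∧ ∀ l : List Fm,
          (IsProof (Ax O S) (l ++ [RFN T n]) →
            n < (Nat.size (pEnc (l ++ [RFN T n])).length) ^ 7) ∧
          (IsProof (Ax O S) (l ++ [Con T n]) →
            n < (Nat.size (pEnc (l ++ [Con T n])).length) ^ 7)) ∧
    ∃ W O : Lang, ClosedOver ext Φ R W O ∧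
      (∃ B, BaseD O B ∧ ∀ σ, S12 σ → B σ) ∧
      ∀ B, Base O B →
        (∃ S, InT O B S ∧ ∀ T, InT O B T → EasyProofs O S (Con T)) ∧
        ∀ S, InT O B S → ∃ T, InT O B T ∧ ¬ PolyBounded O S (RFN T) := by
  refine ⟨fun α hα => ?_, ?_, ?_⟩
  · obtain ⟨O, h1, h2, h3, h4, h5⟩ := closed_false (cmb_adm hext Φ) R hα
    exact ⟨_, O, (closed_iff ext Φ R _ O).2 h1, h2, h3, h4, h5⟩
  · obtain ⟨O, h1, h2, h3⟩ := closed_true (cmb_adm hext Φ) R
    exact ⟨_, O, (closed_iff ext Φ R _ O).2 h1, h2, h3⟩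
  · obtain ⟨O, h1, h2, h3⟩ := closed_mixed (cmb_adm hext Φ) R
    exact ⟨_, O, (closed_iff ext Φ R _ O).2 h1, h2, h3⟩

end Pool.Agent.AT
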