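import Pool.Agent.Lib_helper78.AT.Build

/-!
# In a closed oracle: Q1 is true and the variant with consistency is false
-/

set_option autoImplicit false

namespace Pool.Agent.AT

open Pool.Agent.CK Pool.Agent.RF Pool.Agent.CKP Pool.Agent.RO Pool.Agent.ADV Filter
open Pool.Agent.FS hiding Par
open Pool.Agent.TC hiding hasM_iff test_iff test_ok exists_S easy_test agree_low false_step dead_step
  pot_step base_agree OT_agree stage exists_k exists_par exists_out exists_F out_len F_mono
  exists_stage YF_short sh_iff g_big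
open Pool.Agent.AEC

/-- **The third case.** -/
theorem closed_mixed {ext : List Bool → Finset (List Bool)} (hext : Adm ext) (R : Lang) :
    ∃ O : Lang, IsClo ext R (fun x => O (true :: x)) O ∧
      (∃ B, BaseD O B ∧ ∀ σ, S12 σ → B σ) ∧
      ∀ B, Base O B →
        (∃ S, InT O B S ∧ ∀ T, InT O B T → EasyProofs O S (RF.Con T)) ∧
        ∀ S, InT O B S → ∃ T, InT O B T ∧ ¬ PolyBounded O S (RFN T) := by
  have hc : Countable Cmd := Function.Injective.countable cEnc_inj
  obtain ⟨num, hnum⟩ := exists_injective_nat Th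
  have : Nonempty (Th × Th) := ⟨((Cmd.skip, 0), (Cmd.skip, 0))⟩
  obtain ⟨cl, hcl⟩ := exists_surjective_nat (Th × Th)
  obtain ⟨c, hlen⟩ := witF_len
  obtain ⟨P, hP, rfl, hPn, rfl, rfl⟩ := exists_par R num hnum cl c
  obtain ⟨F, hF0, hF⟩ := exists_F hext hP
  have hG : ∀ e, GF e → e.Good := fun e he => he.1
  refine ⟨OP ext P (YF F), OA_is hext hG _ _, base_all _, ?_⟩
  intro B hB
  have hg := g_big P
  refine ⟨?_, ?_⟩
  · have hO : TalO GF P.g (OP ext P (YF F)) := OA_tally hext hG _ _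
    obtain ⟨S, hS, hax⟩ := exists_S (G := GF) hG hO hg hB
    refine ⟨S, hS, fun T hT => ?_⟩
    have h1 := easy_test (G := GF) hO hg hax (conE T) ⟨conE_good T, conE_ref T⟩ (conE_ok hT)
    rwa [conE_at] at h1
  intro S hS
  obtain ⟨T, hTh, hax⟩ := exists_TW hB (P.num S)
  have hsub : ∀ σ, B σ → Ax (OP ext P (YF F)) T σ := fun σ hσ => (hax σ).mpr (Or.inl hσ)
  -- stages of the pair
  have hst : ∀ s, P.S s = S → P.T s = T → P.pf s = pfxT T (P.num S) := by
    intro s h1 h2
    show pfxT (P.T s) (P.num (P.S s)) = _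
    rw [h1, h2]
  have hst' : ∀ (s : ℕ) (u v : List Bool), ins (P.pf s) u = ins (pfxT T (P.num S)) v →
      P.S s = S ∧ P.T s = T ∧ u = v := by
    intro s u v h
    obtain ⟨h1, h2, h3⟩ := pfxT_inj (List.cons.inj h).2
    exact ⟨hP.inj h2, h1, h3⟩
  -- there is no flag without witness
  have hnoB : ∀ s, P.S s = S → P.T s = T → ∀ u : List Bool, u.length = P.nn s →
      ad (ins (P.pf s) u) [] ∈ F (s + 1) →
      (∀ y : List Bool, y ≠ [] → ad (ins (P.pf s) u) y ∉ F (s + 1)) →
      ¬ P.Sh s (OP ext P (LF (F (s + 1)))) := by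
    intro s hs1 hs2 u hu hfl hno hSh
    rw [← sh_iff hext hP hF0 hF] at hSh
    have hz : ins (P.pf s) u = true :: (pfxT T (P.num S) ++ u) := by
      rw [hst s hs1 hs2]
      rfl
    have hM : ¬ MuT (OP ext P (YF F)) e1 (val (ins (P.pf s) u)) (zz (ins (P.pf s) u).length) := by
      intro hM
      rcases of_mu hM with h1 | ⟨y, hy, h1⟩
      · rw [OP_ad hext, YF_iff.2 ⟨s + 1, hfl⟩] at h1
        exact Bool.noConfusion h1
      · rw [OP_ad hext] at h1
        exact hno y hy (mem_stage hP hF0 hF hu h1)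
    obtain ⟨l, hl, -⟩ := hSh
    rw [hs1, hs2] at hl
    have hzl : (ins (P.pf s) u).length = P.nn s + ((P.pf s).length + 1) := by
      unfold ins
      rw [List.length_cons, List.length_append, hu]
      omega
    obtain ⟨g1, g2, g3, g4⟩ := hlen (ins (P.pf s) u)
    rw [← hzl] at hl
    have hR : ¬ RfnT (OP ext P (YF F)) T (NN P.c (ins (P.pf s) u).length) := by
      refine not_rfn ((hax _).2 (Or.inr ⟨u, ?_⟩)) hM g1 g2 g3 g4
      rw [hz]
    have h1 : ¬ (RFN T (NN P.c (ins (P.pf s) u).length)).True (OP ext P (YF F)) := fun hh =>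
      hR ((holds_RFN _ (fun _ => 0) T _).mp (hh _))
    exact hS.cons (prv_bot ⟨l, hl⟩ (prv_mono hS.ext (hB.refRFN T _ h1)))
  -- the axioms are true
  have htrue : ∀ σ, Ax (OP ext P (YF F)) T σ → σ.True (OP ext P (YF F)) := by
    intro σ hσ
    rcases (hax σ).mp hσ with h | ⟨u, rfl⟩
    · exact hB.isTrue σ h
    refine witF_true ?_
    show MuT _ e1 (val (ins (pfxT T (P.num S)) u)) (zz (ins (pfxT T (P.num S)) u).length)
    cases hO : OP ext P (YF F) (true :: ad (ins (pfxT T (P.num S)) u) []) with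
    | false => exact mu_of (y := []) (Nat.zero_le _) (Or.inl ⟨rfl, hO⟩)
    | true =>
      rw [OP_ad hext] at hO
      obtain ⟨t, h2, h3⟩ := exists_stage hF0 hO
      obtain ⟨v, y, h4, h5, -⟩ := (hF t).2.2.1 _ h2 h3
      obtain ⟨h6, h7⟩ := ad_inj h4
      obtain ⟨h8, h9, h10⟩ := hst' t _ _ h6.symm
      subst h10
      rw [h6] at h2
      rcases (hF t).2.2.2 with ⟨-, h11⟩ | ⟨h11, w, h12, h13, h14⟩
      · obtain ⟨y, hy, h12⟩ := h11 v h5 h2
        refine mu_of (y := y) ?_ (Or.inr ⟨?_, ?_⟩)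
        · unfold ins
          rw [List.length_cons, List.length_append]
          omega
        · rintro rfl
          have := hP.two t
          rw [List.length_nil] at hy
          omega
        · rw [OP_ad hext, h6]
          exact YF_iff.2 ⟨t + 1, h12⟩
      · exact absurd h11 (hnoB t h8 h9 w h12 h13 h14)
  refine ⟨T, ⟨hTh, hsub, ?_, ?_⟩, ?_⟩
  · intro σ hσ
    rcases (hax σ).mp hσ with h | ⟨u, rfl⟩
    · exact hB.closed σ h
    · exact closed_mu _ _ _
  · intro h
    have h1 := sound htrue h (fun _ => 0)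
    exact h1 rfl
  · rintro ⟨c0, hc0⟩
    obtain ⟨m, hm⟩ := hcl (S, T)
    set s := Nat.pair m c0 with hs
    have hu : Nat.unpair s = (m, c0) := Nat.unpair_pair _ _
    have h1 : P.S s = S := by
      show (P.cl (Nat.unpair s).1).1 = S
      rw [hu, hm]
    have h2 : P.T s = T := by
      show (P.cl (Nat.unpair s).1).2 = T
      rw [hu, hm]
    have h3 : P.Sh s (OP ext P (YF F)) := by
      show Short (P.S s) (P.T s) (Nat.unpair s).2 (NN P.c (P.nn s + ((P.pf s).length + 1))) _
      rw [h1, h2, hu]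
      exact hc0 _
    rw [sh_iff hext hP hF0 hF] at h3
    rcases (hF s).2.2.2 with ⟨h4, -⟩ | ⟨h4, u, h5, h6, h7⟩
    · exact h4 h3
    · exact hnoB s h1 h2 u h5 h6 h7 h4

end Pool.Agent.AT
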