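import Pool.Agent.Lib_helper78.AT.Tal

/-!
# The marks and the potential, in a closed oracle
-/

set_option autoImplicit false

namespace Pool.Agent.AT

open Pool.Agent.CK Pool.Agent.RF Pool.Agent.CKP Pool.Agent.RO Pool.Agent.ADV Pool.Agent.FS
open Pool.Agent.TC hiding hasM_iff test_iff test_ok exists_S easy_test agree_low false_step dead_step
  pot_step base_agree OT_agree
open Pool.Agent.AEC

open Classical in
/-- the operator: marks at the tally strings, `Y` at the other strings -/
noncomputable def opA (ext : List Bool → Finset (List Bool)) (G : Fam → Prop) (g : ℕ → ℕ)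
    (Y R O : Lang) : Lang
  | [] => false
  | [false] => false
  | false :: false :: s => R s
  | false :: true :: w => par (ext w) O
  | true :: x => if x = List.replicate x.length false then decide (Mark G g O x) else Y x

/-- the closed oracle -/
noncomputable def OA (ext : List Bool → Finset (List Bool)) (G : Fam → Prop) (g : ℕ → ℕ)
    (Y R : Lang) : Lang := fixO (opA ext G g Y R)

section

variable {ext : List Bool → Finset (List Bool)} {G : Fam → Prop} {g : ℕ → ℕ}

theorem opA_loc (hext : Adm ext) (hG : ∀ e, G e → e.Good) (Y R : Lang) :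
    Loc (opA ext G g Y R) := by
  intro x O O' h
  match x with
  | [] => rfl
  | [false] => rfl
  | false :: false :: s => rfl
  | false :: true :: w =>
    refine par_congr fun s hs => h s ?_
    have := hext w s hs
    simp only [List.length_cons]
    omega
  | true :: x =>
    have h1 : ∀ y : List Bool, y.length ≤ x.length → O y = O' y := fun y hy =>
      h y (by rw [List.length_cons]; omega)
    have h2 : Mark G g O x ↔ Mark G g O' x :=
      ⟨mark_congr hG h1, mark_congr hG (fun y hy => (h1 y hy).symm)⟩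
    simp only [opA]
    rw [decide_eq_decide.2 h2]

theorem OA_is (hext : Adm ext) (hG : ∀ e, G e → e.Good) (Y R : Lang) :
    IsClo ext R (fun x => OA ext G g Y R (true :: x)) (OA ext G g Y R) where
  nil := fixO_eq (opA_loc hext hG Y R) []
  one := fixO_eq (opA_loc hext hG Y R) [false]
  left s := fixO_eq (opA_loc hext hG Y R) (false :: false :: s)
  mid w := fixO_eq (opA_loc hext hG Y R) (false :: true :: w)
  right _ := rfl

theorem OA_true (hext : Adm ext) (hG : ∀ e, G e → e.Good) (Y R : Lang) (x : List Bool) :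
    OA ext G g Y R (true :: x) = opA ext G g Y R (OA ext G g Y R) (true :: x) :=
  fixO_eq (opA_loc hext hG Y R) (true :: x)

theorem OA_tally (hext : Adm ext) (hG : ∀ e, G e → e.Good) (Y R : Lang) :
    TalO G g (OA ext G g Y R) := by
  intro m
  rw [OA_true hext hG]
  simp [opA]

theorem OA_Y (hext : Adm ext) (hG : ∀ e, G e → e.Good) (Y R : Lang) {x : List Bool}
    (hx : x ≠ List.replicate x.length false) : OA ext G g Y R (true :: x) = Y x := by
  rw [OA_true hext hG]
  simp [opA, hx]

/-- if the lower marks agree, the oracles differ by the change of the closure -/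
theorem flip_low (hext : Adm ext) (hG : ∀ e, G e → e.Good) {Y Y' D R : Lang} {l : ℕ}
    (hlow : ∀ l' < l, ∀ u, Dead G g (OA ext G g Y R) u l' ↔ Dead G g (OA ext G g Y' R) u l')
    (hD : ∀ m, D (List.replicate m false) = false)
    (hY : ∀ x : List Bool, x.length < 2 ^ 2 ^ l → Y' x = xor (Y x) (D x))
    (x : List Bool) (hx : x.length ≤ 2 ^ 2 ^ l) :
    OA ext G g Y' R x = xor (OA ext G g Y R x) (dl ext D x) := by
  refine clo_flip hext (OA_is hext hG Y R) (OA_is hext hG Y' R) (fun x hx => ?_) x hx
  by_cases ht : x = List.replicate x.length false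
  · have h1 : Mark G g (OA ext G g Y R) x ↔ Mark G g (OA ext G g Y' R) x := by
      have key : ∀ {Y Y' : Lang}, (∀ l' < l, ∀ u, Dead G g (OA ext G g Y R) u l' →
          Dead G g (OA ext G g Y' R) u l') → Mark G g (OA ext G g Y R) x →
          Mark G g (OA ext G g Y' R) x := by
        rintro Y Y' hl ⟨l', u, b, h2, h3, h4⟩
        refine ⟨l', u, b, h2, h3, h4.imp id (fun h5 => ⟨h5.1, hl l' ?_ u h5.2⟩)⟩
        have h6 := congrArg List.length h2
        rw [List.length_replicate] at h6
        have h7 : 2 ^ (2 ^ l' + 2 * u + b) < 2 ^ 2 ^ l := by omega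
        have h8 := (Nat.pow_lt_pow_iff_right (by norm_num : 1 < 2)).1 h7
        have h9 : 2 ^ l' < 2 ^ l := by omega
        exact (Nat.pow_lt_pow_iff_right (by norm_num : 1 < 2)).1 h9
      exact ⟨key (fun l' hl u => (hlow l' hl u).1), key (fun l' hl u => (hlow l' hl u).2)⟩
    have h2 := OA_tally hext hG Y R (g := g) x.length
    have h3 := OA_tally hext hG Y' R (g := g) x.length
    have h4 := hD x.length
    rw [← ht] at h2 h3 h4
    rw [h4, Bool.xor_false, Bool.eq_iff_iff, h2, h3]
    exact h1.symm
  · rw [OA_Y hext hG _ _ ht, OA_Y hext hG _ _ ht]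
    exact hY x hx

/-- if the lower marks agree, falsity is inherited -/
theorem false_step (hext : Adm ext) (hG : ∀ e, G e → e.Good) {Y Y' D R : Lang} {l : ℕ}
    (hlow : ∀ l' < l, ∀ u, Dead G g (OA ext G g Y R) u l' ↔ Dead G g (OA ext G g Y' R) u l')
    (hD : ∀ m, D (List.replicate m false) = false)
    (hY : ∀ x : List Bool, x.length < 2 ^ 2 ^ l → Y' x = xor (Y x) (D x))
    {Q : Finset (List Bool)} (hQ : ∀ x ∈ Q, dl ext D x = false) {e : Fam} (he : G e) {n : ℕ}
    (hn : e.dep n ≤ 2 ^ l)
    (hcert : ∀ O'' : Lang, (∀ x ∈ Q, O'' x = OA ext G g Y R x) → ¬ (e.at n).True O'') :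
    ¬ (e.at n).True (OA ext G g Y' R) := by
  classical
  let O'' : Lang := fun x => if x.length ≤ 2 ^ 2 ^ l then OA ext G g Y' R x else OA ext G g Y R x
  have h1 : ¬ (e.at n).True O'' := by
    refine hcert O'' (fun x hx => ?_)
    show (if x.length ≤ 2 ^ 2 ^ l then OA ext G g Y' R x else OA ext G g Y R x) = _
    split_ifs with h
    · rw [flip_low hext hG hlow hD hY x h, hQ x hx, Bool.xor_false]
    · rfl
  intro h2
  refine h1 (((hG e he).2 n (OA ext G g Y' R) O'' (fun x hx => ?_)).1 h2)
  show _ = (if x.length ≤ 2 ^ 2 ^ l then OA ext G g Y' R x else OA ext G g Y R x)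
  rw [if_pos (hx.trans (Nat.pow_le_pow_right (by norm_num) hn))]

theorem dead_step (hext : Adm ext) (hG : ∀ e, G e → e.Good) {Y Y' D R : Lang} {l u : ℕ}
    (hlow : ∀ l' < l, ∀ u, Dead G g (OA ext G g Y R) u l' ↔ Dead G g (OA ext G g Y' R) u l')
    (hD : ∀ m, D (List.replicate m false) = false)
    (hY : ∀ x : List Bool, x.length < 2 ^ 2 ^ l → Y' x = xor (Y x) (D x))
    {Q : Finset (List Bool)} (hQ : ∀ x ∈ Q, dl ext D x = false)
    (hcert : ∀ e, G e → cod e = u → ∀ n, e.dep n ≤ 2 ^ l → ¬ (e.at n).True (OA ext G g Y R) →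
      ∀ O'' : Lang, (∀ x ∈ Q, O'' x = OA ext G g Y R x) → ¬ (e.at n).True O'')
    (h : Dead G g (OA ext G g Y R) u l) : Dead G g (OA ext G g Y' R) u l := by
  obtain ⟨e, h1, h2, h3, h4, h5⟩ := h
  refine ⟨e, h1, h2, h3, ?_, fun l' h6 h7 => ?_⟩
  · unfold Alive at h4 ⊢
    push Not at h4 ⊢
    obtain ⟨n, hn, h6⟩ := h4
    exact ⟨n, hn, false_step hext hG hlow hD hY hQ h2 hn (hcert e h2 h1 n hn h6)⟩
  · by_contra h8
    subst h1
    obtain ⟨l'', h9, h10⟩ := (dead_iff (g := g) h2 h6).2 h8
    have h11 := (hlow l'' (by omega) _).2 h10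
    obtain ⟨e', h12, -, h13, h14, -⟩ := h11
    have := cod_inj h12
    subst this
    exact h14 (h5 l'' h13 (by omega))

/-- the comparison of two worlds which differ in `D` -/
theorem pot_step (hext : Adm ext) (hG : ∀ e, G e → e.Good) {Y Y' D R : Lang} {a l0 d : ℕ}
    (ha : 0 < a) (hact : ∀ u, a ≤ u → l0 + d < g u)
    (hbase : ∀ l' < l0, ∀ u, Dead G g (OA ext G g Y R) u l' ↔ Dead G g (OA ext G g Y' R) u l')
    (hD : ∀ m, D (List.replicate m false) = false)
    (hY : ∀ x : List Bool, Y' x = xor (Y x) (D x))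
    {Q : Finset (List Bool)} (hQ : ∀ x ∈ Q, dl ext D x = false)
    (hcert : ∀ e, G e → cod e < a → ∀ n, e.dep n ≤ 2 ^ (l0 + d) →
      ¬ (e.at n).True (OA ext G g Y R) →
      ∀ O'' : Lang, (∀ x ∈ Q, O'' x = OA ext G g Y R x) → ¬ (e.at n).True O'') :
    pv (dig G g a l0 (OA ext G g Y R)) (a * (d + 1)) ≤
      pv (dig G g a l0 (OA ext G g Y' R)) (a * (d + 1)) ∧
    (pv (dig G g a l0 (OA ext G g Y R)) (a * (d + 1)) =
      pv (dig G g a l0 (OA ext G g Y' R)) (a * (d + 1)) →
      ∀ l' < l0 + d + 1, ∀ u, Dead G g (OA ext G g Y R) u l' ↔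
        Dead G g (OA ext G g Y' R) u l') := by
  -- agreement of all digits below gives agreement of all lower marks
  have hconv : ∀ T : ℕ, (∀ s < T, dig G g a l0 (OA ext G g Y R) s =
      dig G g a l0 (OA ext G g Y' R) s) →
      T ≤ a * (d + 1) → ∀ l', l' < l0 + T / a → ∀ u,
      (Dead G g (OA ext G g Y R) u l' ↔ Dead G g (OA ext G g Y' R) u l') := by
    intro T hT hTd l' hl' u
    rcases Nat.lt_or_ge l' l0 with h1 | h1
    · exact hbase l' h1 u
    · rcases Nat.lt_or_ge u a with h2 | h2
      · have h3 : a * (l' - l0) + u < T := by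
          have h4 : l' - l0 + 1 ≤ T / a := by omega
          have h5 := (Nat.le_div_iff_mul_le ha).1 h4
          nlinarith
        have h4 := hT _ h3
        rw [Bool.eq_iff_iff, dig_iff, dig_iff, Nat.mul_add_mod, Nat.mod_eq_of_lt h2,
          Nat.mul_add_div ha, Nat.div_eq_of_lt h2, Nat.add_zero, Nat.add_sub_cancel' h1] at h4
        exact h4
      · have h3 : T / a ≤ d + 1 := by
          have := Nat.div_le_div_right (c := a) hTd
          rwa [Nat.mul_div_cancel_left _ ha] at this
        have h4 := hact u h2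
        constructor
        · rintro ⟨-, -, -, h5, -⟩
          omega
        · rintro ⟨-, -, -, h5, -⟩
          omega
  have hmain := pv_cmp (f := dig G g a l0 (OA ext G g Y R)) (f' := dig G g a l0 (OA ext G g Y' R))
    (V := a * (d + 1)) (fun t ht hlow h => ?_)
  · refine ⟨hmain.1, fun h l' hl' u => ?_⟩
    refine hconv (a * (d + 1)) (hmain.2 h) le_rfl l' ?_ u
    rw [Nat.mul_div_cancel_left _ ha]
    omega
  · have h1 := hconv t hlow ht.le
    have h2 : t / a ≤ d := by
      have := (Nat.div_lt_iff_lt_mul ha).2 (show t < (d + 1) * a by rwa [mul_comm])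
      omega
    have h3 : 2 ^ (l0 + t / a) ≤ 2 ^ (l0 + d) := Nat.pow_le_pow_right (by norm_num) (by omega)
    rw [dig_iff] at h ⊢
    refine dead_step hext hG h1 hD (fun x _ => hY x) hQ (fun e he hc n hn => ?_) h
    exact hcert e he (by rw [hc]; exact Nat.mod_lt _ ha) n (hn.trans h3)

/-- worlds which agree on the short strings have the same low marks -/
theorem base_agree (hext : Adm ext) (hG : ∀ e, G e → e.Good) {Y Y' R : Lang} (l : ℕ)
    (hY : ∀ x : List Bool, x.length < 2 ^ 2 ^ l → Y x = Y' x) :
    ∀ l' ≤ l, ∀ u, Dead G g (OA ext G g Y R) u l' ↔ Dead G g (OA ext G g Y' R) u l' := by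
  intro l'
  induction l' using Nat.strong_induction_on with
  | _ l' ih =>
    intro hl' u
    have h1 : ∀ l'' < l', ∀ u, Dead G g (OA ext G g Y R) u l'' ↔
        Dead G g (OA ext G g Y' R) u l'' := fun l'' h u => ih l'' h (by omega) u
    have h2 : 2 ^ 2 ^ l' ≤ 2 ^ 2 ^ l :=
      Nat.pow_le_pow_right (by norm_num) (Nat.pow_le_pow_right (by norm_num) hl')
    have h3 : ∀ y : List Bool, y.length ≤ 2 ^ 2 ^ l' → OA ext G g Y R y = OA ext G g Y' R y := by
      intro y hy
      rw [flip_low (D := fun _ => false) hext hG h1 (fun _ => rfl)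
        (fun x hx => by rw [hY x (hx.trans_le h2), Bool.xor_false]) y hy,
        dl_short hext (N := y.length) (fun _ _ => rfl) y le_rfl, Bool.xor_false]
    exact ⟨dead_congr hG h3, dead_congr hG (fun y hy => (h3 y hy).symm)⟩

/-- worlds which agree on the short strings -/
theorem OA_agree (hext : Adm ext) (hG : ∀ e, G e → e.Good) {Y Y' R : Lang} {N : ℕ}
    (hY : ∀ x : List Bool, x.length < N → Y x = Y' x) :
    ∀ x : List Bool, x.length ≤ N → OA ext G g Y R x = OA ext G g Y' R x := by
  intro x
  induction hn : x.length using Nat.strong_induction_on generalizing x with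
  | _ n ih =>
    intro hN
    subst hn
    match x with
    | [] => rw [(OA_is hext hG Y R).nil, (OA_is hext hG Y' R).nil]
    | [false] => rw [(OA_is hext hG Y R).one, (OA_is hext hG Y' R).one]
    | false :: false :: s => rw [(OA_is hext hG Y R).left, (OA_is hext hG Y' R).left]
    | false :: true :: w =>
      rw [(OA_is hext hG Y R).mid, (OA_is hext hG Y' R).mid]
      refine par_congr fun s hs => ?_
      have h1 := hext w s hs
      simp only [List.length_cons] at hN ih
      exact ih s.length (by omega) s rfl (by omega)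
    | true :: x =>
      rw [List.length_cons] at hN ih
      by_cases ht : x = List.replicate x.length false
      · have h1 : ∀ y : List Bool, y.length ≤ x.length → OA ext G g Y R y = OA ext G g Y' R y :=
          fun y hy => ih y.length (by omega) y rfl (by omega)
        have h2 := OA_tally hext hG Y R (g := g) x.length
        have h3 := OA_tally hext hG Y' R (g := g) x.length
        rw [← ht] at h2 h3
        rw [Bool.eq_iff_iff, h2, h3]
        exact ⟨mark_congr hG h1, mark_congr hG (fun y hy => (h1 y hy).symm)⟩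
      · rw [OA_Y hext hG _ _ ht, OA_Y hext hG _ _ ht]
        exact hY x (by omega)

end

end Pool.Agent.AT
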