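import Pool.Agent.Lib_helper78.AT.Pot
import Pool.Agent.Lib_helper78.TC.Build

/-!
# One stage, in a closed oracle
-/

set_option autoImplicit false

namespace Pool.Agent.AT

open Pool.Agent.CK Pool.Agent.RF Pool.Agent.CKP Pool.Agent.RO Pool.Agent.ADV Pool.Agent.FS
open Pool.Agent.TC hiding hasM_iff test_iff test_ok exists_S easy_test agree_low false_step dead_step
  pot_step base_agree OT_agree stage
open Pool.Agent.AEC

theorem LF_union {F D : Finset (List Bool)} (h : ∀ x ∈ D, x ∉ F) (x : List Bool) :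
    LF (F ∪ D) x = xor (LF F x) (LF D x) := by
  have h1 := h x
  unfold LF
  rw [Bool.eq_iff_iff]
  simp only [decide_eq_true_eq, Finset.mem_union]
  by_cases h2 : x ∈ F <;> by_cases h3 : x ∈ D <;> simp_all

theorem LF_iff {F : Finset (List Bool)} {x : List Bool} : LF F x = true ↔ x ∈ F := by
  unfold LF
  exact decide_eq_true_iff

/-- many strings of length `n` outside a small set -/
theorem exists_many (n m : ℕ) (U : Finset (List Bool)) (h : U.card + m ≤ 2 ^ n) :
    ∃ V : Finset (List Bool), V.card = m ∧ (∀ u ∈ V, u.length = n ∧ u ∉ U) := by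
  classical
  have h1 : ((Finset.univ : Finset (Fin n → Bool)).image (fun v => List.ofFn v)).card = 2 ^ n := by
    rw [Finset.card_image_of_injective _ (fun a b hab => List.ofFn_injective hab),
      Finset.card_univ, Fintype.card_fun, Fintype.card_bool, Fintype.card_fin]
  have h2 : m ≤ (((Finset.univ : Finset (Fin n → Bool)).image (fun v => List.ofFn v)) \ U).card := by
    have := Finset.le_card_sdiff U ((Finset.univ : Finset (Fin n → Bool)).image
      (fun v => List.ofFn v))
    omega
  obtain ⟨V, hV, hc⟩ := Finset.exists_subset_card_eq h2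
  refine ⟨V, hc, fun u hu => ?_⟩
  obtain ⟨h3, h4⟩ := Finset.mem_sdiff.1 (hV hu)
  obtain ⟨v, -, rfl⟩ := Finset.mem_image.1 h3
  exact ⟨List.length_ofFn, h4⟩

section

variable {ext : List Bool → Finset (List Bool)} {G : Fam → Prop} {g : ℕ → ℕ}

/-- the comparison of two finite worlds -/
theorem cmp (hext : Adm ext) (hG : ∀ e, G e → e.Good) (R : Lang) {n a k : ℕ} (hn : 2 ≤ n)
    (ha : 0 < a) (hact : ∀ u, a ≤ u → ix n + 1 + k < g u) {F D Q : Finset (List Bool)}
    (hDF : ∀ x ∈ D, x ∉ F) (hDl : ∀ x ∈ D, n ≤ x.length)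
    (hDt : ∀ x ∈ D, x ≠ List.replicate x.length false)
    (hQ : ∀ x ∈ Q, dl ext (LF D) x = false)
    (hcert : ∀ e, G e → cod e < a → ∀ m, e.dep m ≤ 2 ^ (ix n + 1 + k) →
      ¬ (e.at m).True (OA ext G g (LF F) R) →
      ∀ O'' : Lang, (∀ x ∈ Q, O'' x = OA ext G g (LF F) R x) → ¬ (e.at m).True O'') :
    pv (dig G g a (ix n + 1) (OA ext G g (LF F) R)) (a * (k + 1)) ≤
      pv (dig G g a (ix n + 1) (OA ext G g (LF (F ∪ D)) R)) (a * (k + 1)) ∧
    (pv (dig G g a (ix n + 1) (OA ext G g (LF F) R)) (a * (k + 1)) =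
      pv (dig G g a (ix n + 1) (OA ext G g (LF (F ∪ D)) R)) (a * (k + 1)) →
      ∀ x : List Bool, x.length ≤ 2 ^ 2 ^ (ix n + 1 + k + 1) →
        OA ext G g (LF (F ∪ D)) R x = xor (OA ext G g (LF F) R x) (dl ext (LF D) x)) := by
  have hlev := lev_le hn
  have hY := LF_union hDF
  have hD : ∀ m, LF D (List.replicate m false) = false := by
    intro m
    by_contra hcon
    rw [Bool.not_eq_false, LF_iff] at hcon
    have := hDt _ hcon
    rw [List.length_replicate] at this
    exact this rfl
  have hbase : ∀ l' < ix n + 1, ∀ u, Dead G g (OA ext G g (LF F) R) u l' ↔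
      Dead G g (OA ext G g (LF (F ∪ D)) R) u l' := by
    intro l' hl' u
    refine base_agree hext hG (ix n) (fun x hx => ?_) l' (by omega) u
    rw [hY]
    have h1 : LF D x = false := by
      by_contra hcon
      rw [Bool.not_eq_false, LF_iff] at hcon
      have := hDl x hcon
      omega
    rw [h1, Bool.xor_false]
  obtain ⟨h1, h2⟩ := pot_step (Y := LF F) (Y' := LF (F ∪ D)) (D := LF D) (R := R) (d := k)
    hext hG ha hact hbase hD hY (Q := Q) hQ hcert
  refine ⟨h1, fun heq x hx => ?_⟩
  exact flip_low hext hG (h2 heq) hD (fun x _ => hY x) x hx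

/-- **One stage.** -/
theorem stage (hext : Adm ext) (hG : ∀ e, G e → e.Good) (hR : ∀ e, G e → Ref e) (R : Lang)
    (p : List Bool) {n a k q : ℕ} (F0 : Finset (List Bool)) (hn : 2 ≤ n) (ha : 0 < a)
    (hF0 : ∀ u y : List Bool, u.length = n → ad (ins p u) y ∉ F0)
    (hact : ∀ u, a ≤ u → ix n + 1 + k < g u) (P : Lang → Prop)
    (hP : ∀ O, P O → ∃ Q : Finset (List Bool), Q.card ≤ q ∧
      (∀ x ∈ Q, x.length ≤ 2 ^ 2 ^ (ix n + 1 + k + 1)) ∧
      ∀ O' : Lang, (∀ x ∈ Q, O' x = O x) → P O')
    (hsz : (2 ^ (a * (k + 1)) + 1) *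
      (q + a * (2 ^ 2 ^ (ix n + 1 + k) * 2 ^ 2 ^ (ix n + 1 + k)) + 1) ≤ 2 ^ n) :
    ∃ F : Finset (List Bool), F0 ⊆ F ∧
      (∀ x ∈ F, x ∉ F0 → ∃ u y : List Bool, x = ad (ins p u) y ∧ u.length = n ∧
        (y = [] ∨ y.length = n)) ∧
      ((¬ P (OA ext G g (LF F) R) ∧ ∀ u : List Bool, u.length = n → ad (ins p u) [] ∈ F →
          ∃ y : List Bool, y.length = n ∧ ad (ins p u) y ∈ F) ∨
        (P (OA ext G g (LF F) R) ∧ ∃ u : List Bool, u.length = n ∧ ad (ins p u) [] ∈ F ∧
          ∀ y : List Bool, y ≠ [] → ad (ins p u) y ∉ F)) := by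
  classical
  by_contra hcon
  push Not at hcon
  set q' := q + a * (2 ^ 2 ^ (ix n + 1 + k) * 2 ^ 2 ^ (ix n + 1 + k)) with hq'
  have hfl : ∀ u y : List Bool, u.length = n → n ≤ (ad (ins p u) y).length := by
    intro u y hu
    rw [ad_len]
    unfold ins
    rw [List.length_cons, List.length_append]
    omega
  have hnt : ∀ u y : List Bool, ad (ins p u) y ≠
      List.replicate (ad (ins p u) y).length false := fun u y =>
    ad_not_tally List.mem_cons_self
  have key : ∀ i : ℕ, ∃ F U : Finset (List Bool), F0 ⊆ F ∧ U.card ≤ i * (q' + 1) ∧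
      (∀ u ∈ U, u.length = n) ∧
      (∀ x ∈ F, x ∉ F0 → ∃ u ∈ U, ∃ y : List Bool, x = ad (ins p u) y ∧
        (y = [] ∨ y.length = n)) ∧
      (∀ u : List Bool, u.length = n → ad (ins p u) [] ∈ F →
        ∃ y : List Bool, y.length = n ∧ ad (ins p u) y ∈ F) ∧
      i ≤ pv (dig G g a (ix n + 1) (OA ext G g (LF F) R)) (a * (k + 1)) := by
    intro i
    induction i with
    | zero =>
      refine ⟨F0, ∅, Finset.Subset.refl _, Nat.zero_le _, fun u hu =>
        absurd hu (Finset.notMem_empty u), fun x hx hx' => absurd hx hx', fun u hu h =>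
        absurd h (hF0 u [] hu), Nat.zero_le _⟩
    | succ i ih =>
      obtain ⟨F, U, hF1, hU1, hU2, hF2, hF3, hF4⟩ := ih
      have hi := pv_lt (dig G g a (ix n + 1) (OA ext G g (LF F) R)) (a * (k + 1))
      have hUF : ∀ u y : List Bool, u.length = n → u ∉ U → ad (ins p u) y ∉ F := by
        intro u y hu hu' hmem
        obtain ⟨u', hu1, y', h1, -⟩ := hF2 _ hmem (hF0 u y hu)
        have := ins_inj (ad_inj h1).1
        subst this
        exact hu' hu1
      have hcF := hcon F hF1 (fun x hx hx' => by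
        obtain ⟨u, hu, y, h1, h2⟩ := hF2 x hx hx'
        exact ⟨u, y, h1, hU2 u hu, h2⟩)
      have hPF : P (OA ext G g (LF F) R) := by
        by_contra h1
        obtain ⟨u, h2, h3, h4⟩ := hcF.1 h1
        obtain ⟨y, h5, h6⟩ := hF3 u h2 h3
        exact h4 y h5 h6
      obtain ⟨QC, hQC1, hQC2⟩ := exists_certs (G := G) hG hR (OA ext G g (LF F) R) a
        (ix n + 1 + k)
      obtain ⟨QP, hQP1, hQP2, hQP3⟩ := hP _ hPF
      -- new instances
      obtain ⟨V, hV1, hV2⟩ := exists_many n (q' + 1) U (by
        refine le_trans ?_ hsz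
        rw [Nat.add_mul, Nat.one_mul]
        refine Nat.add_le_add_right (hU1.trans (Nat.mul_le_mul_right _ ?_)) _
        omega)
      obtain ⟨D, hD1, hD2, hD3⟩ := exists_kernel hext (V.image (fun u => ad (ins p u) []))
        (QP ∪ QC) (by
          rw [Finset.card_image_of_injective _ (fun u u' h => ins_inj (ad_inj h).1), hV1]
          have := Finset.card_union_le QP QC
          omega)
      have hD4 : ∀ x ∈ D, ∃ u ∈ V, x = ad (ins p u) [] := by
        intro x hx
        obtain ⟨u, hu, rfl⟩ := Finset.mem_image.1 (hD1 hx)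
        exact ⟨u, hu, rfl⟩
      have hDF : ∀ x ∈ D, x ∉ F := by
        intro x hx
        obtain ⟨u, hu, rfl⟩ := hD4 x hx
        exact hUF u [] (hV2 u hu).1 (hV2 u hu).2
      obtain ⟨hX1, hX2⟩ := cmp (Q := QC) hext hG R hn ha hact hDF
        (fun x hx => by
          obtain ⟨u, hu, rfl⟩ := hD4 x hx
          exact hfl u [] (hV2 u hu).1)
        (fun x hx => by
          obtain ⟨u, hu, rfl⟩ := hD4 x hx
          exact hnt u [])
        (fun x hx => hD3 x (Finset.mem_union_right _ hx)) hQC2
      have hXw : ∀ u ∈ V, ∀ y : List Bool, y ≠ [] → ad (ins p u) y ∉ F ∪ D := by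
        intro u hu y hy hmem
        rcases Finset.mem_union.1 hmem with h1 | h1
        · exact hUF u y (hV2 u hu).1 (hV2 u hu).2 h1
        · obtain ⟨v, -, h2⟩ := hD4 _ h1
          exact hy (ad_inj h2).2
      have hXcl : ∀ x ∈ F ∪ D, x ∉ F0 → ∃ u ∈ U ∪ V, ∃ y : List Bool, x = ad (ins p u) y ∧
          (y = [] ∨ y.length = n) := by
        intro x hx hx'
        rcases Finset.mem_union.1 hx with h1 | h1
        · obtain ⟨u, hu, y, h2, h3⟩ := hF2 x h1 hx'
          exact ⟨u, Finset.mem_union_left _ hu, y, h2, h3⟩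
        · obtain ⟨u, hu, h2⟩ := hD4 x h1
          exact ⟨u, Finset.mem_union_right _ hu, [], h2, Or.inl rfl⟩
      have hUV : ∀ u ∈ U ∪ V, u.length = n := by
        intro u hu
        rcases Finset.mem_union.1 hu with h1 | h1
        · exact hU2 u h1
        · exact (hV2 u h1).1
      have hXne : pv (dig G g a (ix n + 1) (OA ext G g (LF F) R)) (a * (k + 1)) ≠
          pv (dig G g a (ix n + 1) (OA ext G g (LF (F ∪ D)) R)) (a * (k + 1)) := by
        intro heq
        have h1 : P (OA ext G g (LF (F ∪ D)) R) := by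
          refine hQP3 _ (fun x hx => ?_)
          rw [hX2 heq x (hQP2 x hx), hD3 x (Finset.mem_union_left _ hx), Bool.xor_false]
        obtain ⟨x, hx⟩ := hD2
        obtain ⟨u, hu, rfl⟩ := hD4 x hx
        obtain ⟨y, h2, h3⟩ := (hcon (F ∪ D) (hF1.trans Finset.subset_union_left)
          (fun x hx hx' => by
            obtain ⟨u, hu, y, h1, h2⟩ := hXcl x hx hx'
            exact ⟨u, y, h1, hUV u hu, h2⟩)).2 h1 u (hV2 u hu).1
            (Finset.mem_union_right _ hx)
        exact hXw u hu y h2 h3
      -- the witnesses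
      have hwit : ∀ V' : Finset (List Bool), V' ⊆ V → ∃ X : Finset (List Bool), F ∪ D ⊆ X ∧
          (∀ x ∈ X, x ∉ F ∪ D → ∃ u ∈ V', ∃ y : List Bool, x = ad (ins p u) y ∧
            y.length = n) ∧
          (∀ u ∈ V', ∃ y : List Bool, y.length = n ∧ ad (ins p u) y ∈ X) ∧
          pv (dig G g a (ix n + 1) (OA ext G g (LF (F ∪ D)) R)) (a * (k + 1)) ≤
            pv (dig G g a (ix n + 1) (OA ext G g (LF X) R)) (a * (k + 1)) := by
        intro V'
        induction V' using Finset.induction_on with
        | empty =>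
          intro _
          exact ⟨F ∪ D, Finset.Subset.refl _, fun x hx hx' => absurd hx hx', fun u hu =>
            absurd hu (Finset.notMem_empty u), le_rfl⟩
        | insert u V' hu ih =>
          intro hsub
          obtain ⟨X, hX3, hX4, hX5, hX6⟩ := ih ((Finset.subset_insert u V').trans hsub)
          have huV : u ∈ V := hsub (Finset.mem_insert_self u V')
          obtain ⟨QX, hQX1, hQX2⟩ := exists_certs (G := G) hG hR (OA ext G g (LF X) R) a
            (ix n + 1 + k)
          obtain ⟨Z, hZ1, hZ2⟩ := exists_many n (2 ^ n) ∅ (by simp)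
          obtain ⟨E, hE1, hE2, hE3⟩ := exists_kernel hext (Z.image (fun y => ad (ins p u) y)) QX
            (by
              rw [Finset.card_image_of_injective _ (fun y y' h => (ad_inj h).2), hZ1]
              refine lt_of_lt_of_le ?_ hsz
              have h1 : q' + 1 ≤ (2 ^ (a * (k + 1)) + 1) * (q' + 1) :=
                Nat.le_mul_of_pos_left _ (by positivity)
              omega)
          have hE4 : ∀ x ∈ E, ∃ y : List Bool, y.length = n ∧ x = ad (ins p u) y := by
            intro x hx
            obtain ⟨y, hy, rfl⟩ := Finset.mem_image.1 (hE1 hx)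
            exact ⟨y, (hZ2 y hy).1, rfl⟩
          have hEX : ∀ x ∈ E, x ∉ X := by
            intro x hx hxX
            obtain ⟨y, hy, rfl⟩ := hE4 x hx
            have hy0 : y ≠ [] := by
              rintro rfl
              rw [List.length_nil] at hy
              omega
            obtain ⟨v, hv, y', h1, -⟩ := hX4 _ hxX (hXw u huV y hy0)
            have := ins_inj (ad_inj h1).1
            subst this
            exact hu hv
          obtain ⟨hA1, -⟩ := cmp (Q := QX) hext hG R hn ha hact hEX
            (fun x hx => by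
              obtain ⟨y, -, rfl⟩ := hE4 x hx
              exact hfl u y (hV2 u huV).1)
            (fun x hx => by
              obtain ⟨y, -, rfl⟩ := hE4 x hx
              exact hnt u y) hE3 hQX2
          refine ⟨X ∪ E, hX3.trans Finset.subset_union_left, ?_, ?_, hX6.trans hA1⟩
          · intro x hx hx'
            rcases Finset.mem_union.1 hx with h1 | h1
            · obtain ⟨v, hv, y, h2, h3⟩ := hX4 x h1 hx'
              exact ⟨v, Finset.mem_insert_of_mem hv, y, h2, h3⟩
            · obtain ⟨y, hy, h2⟩ := hE4 x h1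
              exact ⟨u, Finset.mem_insert_self _ _, y, h2, hy⟩
          · intro v hv
            rcases Finset.mem_insert.1 hv with rfl | h1
            · obtain ⟨x, hx⟩ := hE2
              obtain ⟨y, hy, rfl⟩ := hE4 x hx
              exact ⟨y, hy, Finset.mem_union_right _ hx⟩
            · obtain ⟨y, hy, h2⟩ := hX5 v h1
              exact ⟨y, hy, Finset.mem_union_left _ h2⟩
      obtain ⟨X, hX3, hX4, hX5, hX6⟩ := hwit V (Finset.Subset.refl V)
      refine ⟨X, U ∪ V, hF1.trans (Finset.subset_union_left.trans hX3), ?_, hUV, ?_, ?_, ?_⟩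
      · have := Finset.card_union_le U V
        rw [Nat.add_mul, Nat.one_mul]
        omega
      · intro x hx hx'
        by_cases h1 : x ∈ F ∪ D
        · exact hXcl x h1 hx'
        · obtain ⟨u, hu, y, h2, h3⟩ := hX4 x hx h1
          exact ⟨u, Finset.mem_union_right _ hu, y, h2, Or.inr h3⟩
      · intro u hu h
        by_cases h1 : u ∈ V
        · exact hX5 u h1
        · by_cases h2 : ad (ins p u) [] ∈ F ∪ D
          · rcases Finset.mem_union.1 h2 with h3 | h3
            · obtain ⟨y, hy, h4⟩ := hF3 u hu h3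
              exact ⟨y, hy, hX3 (Finset.mem_union_left _ h4)⟩
            · obtain ⟨v, hv, h4⟩ := hD4 _ h3
              have := ins_inj (ad_inj h4).1
              subst this
              exact absurd hv h1
          · obtain ⟨v, hv, y, h3, h4⟩ := hX4 _ h h2
            have := ins_inj (ad_inj h3).1
            subst this
            exact absurd hv h1
      · omega
  obtain ⟨F, U, -, -, -, -, -, hF⟩ := key (2 ^ (a * (k + 1)))
  have hi := pv_lt (dig G g a (ix n + 1) (OA ext G g (LF F) R)) (a * (k + 1))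
  omega

end

end Pool.Agent.AT
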